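import Mathlib

open FreeGroup

namespace Pool.Agent.Helper49.FreeGroupPos

variable {Y : Type*}

/-- Non-cancelling junction of two words. -/
def J (L M : List (Y × Bool)) : Prop :=
  ∀ a ∈ L.getLast?, ∀ b ∈ M.head?, a.1 = b.1 → a.2 = b.2

lemma isReduced_append {L M : List (Y × Bool)} :
    IsReduced (L ++ M) ↔ IsReduced L ∧ IsReduced M ∧ J L M := List.isChain_append

/-- All letters are positive. -/
def Pos (L : List (Y × Bool)) : Prop := ∀ z ∈ L, z.2 = true

lemma Pos.append {L M : List (Y × Bool)} : Pos (L ++ M) ↔ Pos L ∧ Pos M := by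
  unfold Pos
  constructor
  · intro h
    exact ⟨fun z hz => h z (List.mem_append_left _ hz), fun z hz => h z (List.mem_append_right _ hz)⟩
  · rintro ⟨h1, h2⟩ z hz
    rcases List.mem_append.1 hz with h | h
    · exact h1 z h
    · exact h2 z h

/-- exponent sum of a word -/
def ex (L : List (Y × Bool)) : ℤ := (L.map (fun z => if z.2 then (1 : ℤ) else -1)).sum

lemma ex_le (L : List (Y × Bool)) : ex L ≤ L.length := by
  induction L with
  | nil => simp [ex]
  | cons z L ih =>
    unfold ex at ih ⊢
    rw [List.map_cons, List.sum_cons, List.length_cons]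
    push_cast
    split_ifs <;> linarith

lemma pos_of_ex (L : List (Y × Bool)) (h : (L.length : ℤ) ≤ ex L) : Pos L := by
  induction L with
  | nil => intro z hz; simp at hz
  | cons z L ih =>
    have h1 := ex_le L
    have h2 : ex (z :: L) = (if z.2 then (1 : ℤ) else -1) + ex L := by
      simp [ex]
    rw [h2, List.length_cons] at h
    push_cast at h
    by_cases hz : z.2 = true
    · rw [if_pos hz] at h
      intro t ht
      rcases List.mem_cons.1 ht with rfl | ht
      · exact hz
      · exact ih (by linarith) t ht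
    · rw [if_neg hz] at h
      linarith

lemma ex_pos (L : List (Y × Bool)) (h : Pos L) : ex L = L.length := by
  induction L with
  | nil => simp [ex]
  | cons z L ih =>
    have h2 : ex (z :: L) = (if z.2 then (1 : ℤ) else -1) + ex L := by
      simp [ex]
    rw [h2, if_pos (h z (by simp)), ih (fun t ht => h t (by simp [ht])), List.length_cons]
    push_cast
    ring

/-- exponent sum homomorphism -/
def chi : FreeGroup Y →* Multiplicative ℤ := FreeGroup.lift (fun _ => Multiplicative.ofAdd 1)

lemma chi_mk (L : List (Y × Bool)) : chi (FreeGroup.mk L) = Multiplicative.ofAdd (ex L) := by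
  unfold chi
  rw [FreeGroup.lift_mk]
  induction L with
  | nil => simp [ex]
  | cons z L ih =>
    have h2 : ex (z :: L) = (if z.2 then (1 : ℤ) else -1) + ex L := by
      simp [ex]
    rw [List.map_cons, List.prod_cons, ih, h2, ofAdd_add]
    cases z.2 <;> simp

variable [DecidableEq Y]

lemma chi_eq (g : FreeGroup Y) : chi g = Multiplicative.ofAdd (ex g.toWord) := by
  rw [← chi_mk, FreeGroup.mk_toWord]

lemma toWord_mk_red {L : List (Y × Bool)} (h : IsReduced L) : (FreeGroup.mk L).toWord = L := by
  rw [FreeGroup.toWord_mk, h.reduce_eq]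

/-- `p` positive: word length of powers. -/
lemma norm_pow_le (g : FreeGroup Y) (n : ℕ) : norm (g ^ n) ≤ n * norm g := by
  induction n with
  | zero => simp
  | succ n ih =>
    rw [pow_succ]
    calc norm (g ^ n * g) ≤ norm (g ^ n) + norm g := norm_mul_le _ _
      _ ≤ n * norm g + norm g := by gcongr
      _ = (n + 1) * norm g := by ring

lemma norm_pow_cyc (g : FreeGroup Y) (h : IsCyclicallyReduced g.toWord) (n : ℕ) :
    norm (g ^ n) = n * norm g := by
  unfold FreeGroup.norm
  rw [toWord_pow, (h.flatten_replicate n).isReduced.reduce_eq]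
  simp

/-- a cyclically reduced element is shortest in its conjugacy class -/
lemma norm_le_of_conj (w p g : FreeGroup Y) (hw : IsCyclicallyReduced w.toWord)
    (h : w = g * p * g⁻¹) : norm w ≤ norm p := by
  by_contra hcon
  push Not at hcon
  have h1 : ∀ n : ℕ, n * norm w ≤ 2 * norm g + n * norm p := by
    intro n
    rw [← norm_pow_cyc w hw n, h, conj_pow]
    calc norm (g * p ^ n * g⁻¹) ≤ norm (g * p ^ n) + norm g⁻¹ := norm_mul_le _ _
      _ ≤ norm g + norm (p ^ n) + norm g⁻¹ := by gcongr; exact norm_mul_le _ _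
      _ ≤ norm g + n * norm p + norm g := by rw [norm_inv_eq]; gcongr; exact norm_pow_le _ _
      _ = 2 * norm g + n * norm p := by ring
  have h2 := h1 (2 * norm g + 1)
  nlinarith

/-- cyclically reduced and conjugate to positive implies positive -/
lemma pos_of_conj (w p g : FreeGroup Y) (hw : IsCyclicallyReduced w.toWord)
    (h : w = g * p * g⁻¹) (hp : Pos p.toWord) : Pos w.toWord := by
  apply pos_of_ex
  have h1 := norm_le_of_conj w p g hw h
  have h2 : chi w = chi p := by
    rw [h, MonoidHom.map_mul, MonoidHom.map_mul, MonoidHom.map_inv, mul_comm (chi g), mul_inv_cancel_right]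
  rw [chi_eq, chi_eq] at h2
  have h3 : ex w.toWord = ex p.toWord := by simpa using h2
  rw [h3, ex_pos _ hp]
  exact_mod_cast h1

omit [DecidableEq Y] in
/-- maximal cancellation between two reduced words -/
lemma exists_cancel (a : List (Y × Bool)) : ∀ (b : List (Y × Bool)), IsReduced a → IsReduced b →
    ∃ x z x', a = x ++ z ∧ b = invRev z ++ x' ∧ IsReduced (x ++ x') := by
  induction a using List.reverseRecOn with
  | nil =>
    intro b _ hb
    exact ⟨[], [], b, by simp, by simp, by simpa using hb⟩
  | append_singleton a s ih =>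
    intro b ha hb
    by_cases hj : J (a ++ [s]) b
    · exact ⟨a ++ [s], [], b, by simp, by simp, isReduced_append.2 ⟨ha, hb, hj⟩⟩
    · unfold J at hj
      push Not at hj
      obtain ⟨u, hu, v, hv, h1, h2⟩ := hj
      have hu' : u = s := by simpa using hu.symm
      subst hu'
      rcases b with _ | ⟨t, b⟩
      · simp at hv
      · have hv' : v = t := by simpa using hv.symm
        subst hv'
        have hb' : IsReduced b := ((isReduced_append (L := [v])).1 hb).2.1
        have ha' : IsReduced a := (isReduced_append.1 ha).1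
        obtain ⟨x, z, x', h3, h4, h5⟩ := ih b ha' hb'
        refine ⟨x, z ++ [u], x', ?_, ?_, h5⟩
        · rw [h3, List.append_assoc]
        · rw [invRev_append, h4]
          have : invRev [u] = [v] := by
            rcases u with ⟨u1, u2⟩
            rcases v with ⟨v1, v2⟩
            simp only at h1 h2
            subst h1
            simp only [invRev, List.map_cons, List.map_nil, List.reverse_cons, List.reverse_nil,
              List.nil_append]
            cases u2 <;> cases v2 <;> simp_all
          rw [this]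
          simp

/-- The step lemma: if `A` and `U A U⁻¹` are positive, the last letter of `U` cancels into `A`. -/
lemma step (L : List (Y × Bool)) (s : Y × Bool) (a : List (Y × Bool)) (hL : IsReduced (L ++ [s]))
    (ha : Pos a) (har : IsReduced a) (hne : a ≠ [])
    (h : Pos (FreeGroup.mk (L ++ [s]) * FreeGroup.mk a * (FreeGroup.mk (L ++ [s]))⁻¹).toWord) :
    (s.2 = true ∧ ∃ a', a = a' ++ [s]) ∨ (s.2 = false ∧ ∃ a', a = (s.1, true) :: a') := by
  by_contra hcon
  push Not at hcon
  obtain ⟨hc1, hc2⟩ := hcon
  have hred : IsReduced ((L ++ [s]) ++ (a ++ invRev (L ++ [s]))) := by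
    have hinv : IsReduced (invRev (L ++ [s])) := by
      have : reduce (invRev (L ++ [s])) = invRev (L ++ [s]) := by
        rw [reduce_invRev, hL.reduce_eq]
      exact IsReduced.of_reduce_eq this
    rw [isReduced_append]
    refine ⟨hL, ?_, ?_⟩
    · rw [isReduced_append]
      refine ⟨har, hinv, ?_⟩
      intro u hu v hv h1
      rw [invRev_append] at hv
      have hv' : v = (s.1, !s.2) := by
        have : invRev [s] = [(s.1, !s.2)] := rfl
        rw [this] at hv
        simpa using hv.symm
      have hu2 : u.2 = true := ha u (List.mem_of_getLast? hu)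
      rw [hv'] at h1 ⊢
      simp only at h1 ⊢
      rw [hu2]
      by_contra h2
      have hs : s.2 = true := by
        cases h3 : s.2
        · rw [h3] at h2; simp at h2
        · rfl
      obtain ⟨a', ha'⟩ := List.getLast?_eq_some_iff.1 hu
      apply hc1 hs a'
      rw [ha']
      have : u = s := Prod.ext h1 (by rw [hu2, hs])
      rw [this]
    · intro u hu v hv h1
      have hu' : u = s := by simpa using hu.symm
      subst hu'
      have hv' : v ∈ a.head? := by
        cases a with
        | nil => exact absurd rfl hne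
        | cons t a => simpa using hv
      have hv2 : v.2 = true := ha v (List.mem_of_head? hv')
      rw [hv2]
      by_contra h2
      have hs : u.2 = false := by simpa using h2
      cases a with
      | nil => exact absurd rfl hne
      | cons t a =>
        have : t = v := by simpa using hv'
        apply hc2 hs a
        rw [this]
        congr 1
        exact Prod.ext h1.symm hv2
  have heq : (FreeGroup.mk (L ++ [s]) * FreeGroup.mk a * (FreeGroup.mk (L ++ [s]))⁻¹).toWord
      = (L ++ [s]) ++ (a ++ invRev (L ++ [s])) := by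
    rw [inv_mk, mul_mk, mul_mk, List.append_assoc, toWord_mk_red hred]
  rw [heq] at h
  obtain ⟨h1, h2⟩ := Pos.append.1 h
  obtain ⟨_, h3⟩ := Pos.append.1 h2
  have hs1 : s.2 = true := h1 s (by simp)
  have hs2 : (!s.2) = true := h3 (s.1, !s.2) (by
    rw [invRev_append]
    simp [invRev])
  rw [hs1] at hs2
  simp at hs2

/-- If `A ≠ 1` and `U A U⁻¹` are both positive then `U` or `U⁻¹` is positive. -/
lemma pos_or_neg (L : List (Y × Bool)) : ∀ (a : List (Y × Bool)), IsReduced L →
    Pos a → IsReduced a → a ≠ [] →
    Pos (FreeGroup.mk L * FreeGroup.mk a * (FreeGroup.mk L)⁻¹).toWord →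
    (∀ z ∈ L, z.2 = true) ∨ (∀ z ∈ L, z.2 = false) := by
  induction L using List.reverseRecOn with
  | nil => intro a _ _ _ _ _; left; simp
  | append_singleton L s ih =>
    intro a hL ha har hne h
    have hL' : IsReduced L := (isReduced_append.1 hL).1
    rcases step L s a hL ha har hne h with ⟨hs, a', ha'⟩ | ⟨hs, a', ha'⟩
    · -- s positive
      have hs' : s = (s.1, true) := Prod.ext rfl hs
      set a1 := s :: a' with ha1
      have hpa1 : Pos a1 := by
        intro z hz
        rcases List.mem_cons.1 hz with rfl | hz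
        · exact hs
        · exact ha z (by rw [ha']; simp [hz])
      have hra1 : IsReduced a1 := by
        have : ∀ (M : List (Y × Bool)), Pos M → IsReduced M := by
          intro M hM
          induction M with
          | nil => simp
          | cons u M ihM =>
            cases M with
            | nil => simp
            | cons v M =>
              rw [isReduced_cons_cons]
              refine ⟨fun _ => ?_, ihM (fun z hz => hM z (by simp [hz]))⟩
              rw [hM u (by simp), hM v (by simp)]
        exact this a1 hpa1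
      have hconj : FreeGroup.mk L * FreeGroup.mk a1 * (FreeGroup.mk L)⁻¹
          = FreeGroup.mk (L ++ [s]) * FreeGroup.mk a * (FreeGroup.mk (L ++ [s]))⁻¹ := by
        have e1 : FreeGroup.mk (L ++ [s]) = FreeGroup.mk L * FreeGroup.mk [s] := by rw [mul_mk]
        have e2 : FreeGroup.mk a = FreeGroup.mk a' * FreeGroup.mk [s] := by rw [mul_mk, ha']
        have e3 : FreeGroup.mk a1 = FreeGroup.mk [s] * FreeGroup.mk a' := by rw [mul_mk]; rfl
        rw [e1, e2, e3]
        group
      have h' := h
      rw [← hconj] at h'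
      rcases List.eq_nil_or_concat L with hLnil | ⟨L'', s', hL''⟩
      · left
        intro z hz
        rw [hLnil] at hz
        have : z = s := by simpa using hz
        rw [this]; exact hs
      · rw [List.concat_eq_append] at hL''
        have h'' := h'
        rw [hL''] at h''
        rcases step L'' s' a1 (hL'' ▸ hL') hpa1 hra1 (by simp [a1]) h'' with ⟨hs1, _⟩ | ⟨hs1, a2, ha2⟩
        · rcases ih a1 hL' hpa1 hra1 (by simp [a1]) h' with h3 | h3
          · left
            intro z hz
            rcases List.mem_append.1 hz with hz | hz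
            · exact h3 z hz
            · have : z = s := by simpa using hz
              rw [this]; exact hs
          · exfalso
            have := h3 s' (by rw [hL'']; simp)
            rw [hs1] at this
            simp at this
        · exfalso
          have h4 : s = (s'.1, true) := by
            rw [ha1] at ha2
            exact (List.cons.inj ha2).1
          have h5 := (isReduced_append.1 hL).2.2
          have h6 := h5 s' (by rw [hL'']; simp) s (by simp) (by rw [h4])
          rw [hs1, hs] at h6
          simp at h6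
    · -- s negative
      set a1 := a' ++ [(s.1, true)] with ha1
      have hpa1 : Pos a1 := by
        intro z hz
        rcases List.mem_append.1 hz with hz | hz
        · exact ha z (by rw [ha']; simp [hz])
        · have : z = (s.1, true) := by simpa using hz
          rw [this]
      have hra1 : IsReduced a1 := by
        have : ∀ (M : List (Y × Bool)), Pos M → IsReduced M := by
          intro M hM
          induction M with
          | nil => simp
          | cons u M ihM =>
            cases M with
            | nil => simp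
            | cons v M =>
              rw [isReduced_cons_cons]
              refine ⟨fun _ => ?_, ihM (fun z hz => hM z (by simp [hz]))⟩
              rw [hM u (by simp), hM v (by simp)]
        exact this a1 hpa1
      have hs' : s = (s.1, false) := Prod.ext rfl hs
      have hconj : FreeGroup.mk L * FreeGroup.mk a1 * (FreeGroup.mk L)⁻¹
          = FreeGroup.mk (L ++ [s]) * FreeGroup.mk a * (FreeGroup.mk (L ++ [s]))⁻¹ := by
        have e0 : FreeGroup.mk [s] = (FreeGroup.mk [(s.1, true)])⁻¹ := by
          rw [inv_mk, hs']; rfl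
        have e1 : FreeGroup.mk (L ++ [s]) = FreeGroup.mk L * FreeGroup.mk [s] := by rw [mul_mk]
        have e2 : FreeGroup.mk a = FreeGroup.mk [(s.1, true)] * FreeGroup.mk a' := by
          rw [mul_mk, ha']; rfl
        have e3 : FreeGroup.mk a1 = FreeGroup.mk a' * FreeGroup.mk [(s.1, true)] := by rw [mul_mk]
        rw [e1, e2, e3, e0]
        group
      have h' := h
      rw [← hconj] at h'
      rcases List.eq_nil_or_concat L with hLnil | ⟨L'', s', hL''⟩
      · right
        intro z hz
        rw [hLnil] at hz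
        have : z = s := by simpa using hz
        rw [this]; exact hs
      · rw [List.concat_eq_append] at hL''
        have h'' := h'
        rw [hL''] at h''
        rcases step L'' s' a1 (hL'' ▸ hL') hpa1 hra1 (by simp [a1]) h'' with ⟨hs1, a2, ha2⟩ | ⟨hs1, a2, ha2⟩
        · exfalso
          have h4 : (s.1, true) = s' := by
            rw [ha1] at ha2
            have := congrArg List.getLast? ha2
            simpa using this
          have h5 := (isReduced_append.1 hL).2.2
          have h6 := h5 s' (by rw [hL'']; simp) s (by simp) (by rw [← h4])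
          rw [hs1, hs] at h6
          simp at h6
        · rcases ih a1 hL' hpa1 hra1 (by simp [a1]) h' with h3 | h3
          · exfalso
            have := h3 s' (by rw [hL'']; simp)
            rw [hs1] at this
            simp at this
          · right
            intro z hz
            rcases List.mem_append.1 hz with hz | hz
            · exact h3 z hz
            · have : z = s := by simpa using hz
              rw [this]; exact hs

/-- The endgame: `A ≠ 1` and `U A U⁻¹` positive with exponent sum of `U` zero forces `U = 1`. -/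
lemma endgame (A U : FreeGroup Y) (hA : A ≠ 1) (hpA : Pos A.toWord)
    (hpB : Pos (U * A * U⁻¹).toWord) (hU : chi U = 1) : U = 1 := by
  have h1 := pos_or_neg U.toWord A.toWord isReduced_toWord hpA isReduced_toWord
    (by simpa using hA) (by rw [mk_toWord, mk_toWord]; exact hpB)
  rw [chi_eq] at hU
  have h0 : ex U.toWord = 0 := by simpa using hU
  have h2 : (U.toWord.length : ℤ) = 0 := by
    rcases h1 with h1 | h1
    · rw [← ex_pos _ h1, h0]
    · have : ∀ M : List (Y × Bool), (∀ z ∈ M, z.2 = false) → ex M = -(M.length : ℤ) := by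
        intro M hM
        induction M with
        | nil => simp [ex]
        | cons z M ih =>
          have h2 : ex (z :: M) = (if z.2 then (1 : ℤ) else -1) + ex M := by
            simp [ex]
          rw [h2, ih (fun t ht => hM t (by simp [ht])), hM z (by simp)]
          simp
      have h3 := this _ h1
      rw [h0] at h3
      linarith
  have h3 : U.toWord.length = 0 := by exact_mod_cast h2
  rw [List.length_eq_zero_iff] at h3
  exact toWord_eq_nil_iff.1 h3

lemma sq_word (A : FreeGroup Y) : ∃ c a0, A.toWord = c ++ a0 ++ invRev c ∧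
    (A ^ 2).toWord = c ++ (a0 ++ a0) ++ invRev c ∧ IsCyclicallyReduced a0 := by
  refine ⟨reduceCyclically.conjugator A.toWord, reduceCyclically A.toWord, ?_, ?_, ?_⟩
  · exact (reduceCyclically.conj_conjugator_reduceCyclically _).symm
  · rw [toWord_pow, reduceCyclically.reduce_flatten_replicate_succ isReduced_toWord 1]
    simp
  · exact reduceCyclically.isCyclicallyReduced isReduced_toWord

omit [DecidableEq Y] in
lemma head_eq (c a0 : List (Y × Bool)) :
    (c ++ (a0 ++ a0) ++ invRev c).head? = (c ++ a0 ++ invRev c).head? := by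
  rcases c with _ | ⟨y, c⟩
  · rcases a0 with _ | ⟨y, a0⟩ <;> simp
  · simp

omit [DecidableEq Y] in
lemma last_eq (c a0 : List (Y × Bool)) :
    (c ++ (a0 ++ a0) ++ invRev c).getLast? = (c ++ a0 ++ invRev c).getLast? := by
  rcases c with _ | ⟨y, c⟩
  · rcases List.eq_nil_or_concat a0 with h | ⟨a1, s, h⟩
    · simp [h]
    · rw [List.concat_eq_append] at h
      rw [h]
      have e1 : (([] : List (Y × Bool)) ++ (a1 ++ [s] ++ (a1 ++ [s])) ++ invRev []) = (a1 ++ [s] ++ a1) ++ [s] := by
        simp
      have e2 : (([] : List (Y × Bool)) ++ (a1 ++ [s]) ++ invRev []) = a1 ++ [s] := by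
        simp
      rw [e1, e2, List.getLast?_concat, List.getLast?_concat]
  · have : invRev (y :: c) = invRev c ++ [(y.1, !y.2)] := by
      rw [invRev_cons]; rfl
    rw [this, ← List.append_assoc (y :: c ++ (a0 ++ a0)), ← List.append_assoc (y :: c ++ a0),
      List.getLast?_concat, List.getLast?_concat]

omit [DecidableEq Y] in
lemma J_congr {L L' M M' : List (Y × Bool)} (h1 : L.getLast? = L'.getLast?) (h2 : M.head? = M'.head?) :
    J L M ↔ J L' M' := by
  unfold J
  rw [h1, h2]

/-- If both junctions do not cancel, everything is positive and the endgame applies. -/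
lemma caseI (A U g p : FreeGroup Y) (hA : A ≠ 1) (hU : chi U = 1) (hU1 : U ≠ 1)
    (hp : Pos p.toWord) (h : A ^ 2 * (U * A * U⁻¹) ^ 2 = g * p * g⁻¹)
    (h1 : J A.toWord (U * A * U⁻¹).toWord) (h2 : J (U * A * U⁻¹).toWord A.toWord) : False := by
  set B := U * A * U⁻¹ with hB
  obtain ⟨c, a0, ha1, ha2, ha3⟩ := sq_word A
  obtain ⟨d, b0, hb1, hb2, hb3⟩ := sq_word B
  have hBne : B ≠ 1 := by
    intro hB1
    apply hA
    have : A = U⁻¹ * B * U := by rw [hB]; group
    rw [this, hB1]; group
  have hAw : A.toWord ≠ [] := fun h => hA (toWord_eq_nil_iff.1 h)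
  have hBw : B.toWord ≠ [] := fun h => hBne (toWord_eq_nil_iff.1 h)
  have hj1 : J (A ^ 2).toWord (B ^ 2).toWord := by
    rw [J_congr (L' := A.toWord) (M' := B.toWord)]
    · exact h1
    · rw [ha1, ha2]; exact last_eq _ _
    · rw [hb1, hb2]; exact head_eq _ _
  have hj2 : J (B ^ 2).toWord (A ^ 2).toWord := by
    rw [J_congr (L' := B.toWord) (M' := A.toWord)]
    · exact h2
    · rw [hb1, hb2]; exact last_eq _ _
    · rw [ha1, ha2]; exact head_eq _ _
  have hA2 : (A ^ 2).toWord ≠ [] := by
    intro h
    have h3 : (A ^ 2).toWord.head? = A.toWord.head? := by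
      rw [ha1, ha2]; exact head_eq _ _
    rw [h] at h3
    have := List.head?_eq_none_iff.1 h3.symm
    exact hAw this
  have hB2 : (B ^ 2).toWord ≠ [] := by
    intro h
    have h3 : (B ^ 2).toWord.head? = B.toWord.head? := by
      rw [hb1, hb2]; exact head_eq _ _
    rw [h] at h3
    have := List.head?_eq_none_iff.1 h3.symm
    exact hBw this
  have hred : IsReduced ((A ^ 2).toWord ++ (B ^ 2).toWord) :=
    isReduced_append.2 ⟨isReduced_toWord, isReduced_toWord, hj1⟩
  have hW : (A ^ 2 * B ^ 2).toWord = (A ^ 2).toWord ++ (B ^ 2).toWord := by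
    rw [toWord_mul, hred.reduce_eq]
  have hcyc : IsCyclicallyReduced (A ^ 2 * B ^ 2).toWord := by
    rw [hW]
    refine ⟨hred, ?_⟩
    have : J ((A ^ 2).toWord ++ (B ^ 2).toWord) ((A ^ 2).toWord ++ (B ^ 2).toWord) := by
      rw [J_congr (L' := (B ^ 2).toWord) (M' := (A ^ 2).toWord)]
      · exact hj2
      · exact List.getLast?_append_of_ne_nil _ hB2
      · exact List.head?_append_of_ne_nil _ hA2
    exact this
  have hpos := pos_of_conj _ p g hcyc h hp
  rw [hW] at hpos
  obtain ⟨hp1, hp2⟩ := Pos.append.1 hpos
  have hpA : Pos A.toWord := by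
    rw [ha2] at hp1
    rw [ha1]
    intro z hz
    apply hp1 z
    simp only [List.mem_append] at hz ⊢
    tauto
  have hpB : Pos B.toWord := by
    rw [hb2] at hp2
    rw [hb1]
    intro z hz
    apply hp2 z
    simp only [List.mem_append] at hz ⊢
    tauto
  exact hU1 (endgame A U hA hpA hpB hU)

lemma norm_conj_head (B : FreeGroup Y) (y : Y × Bool) (b : List (Y × Bool)) (h : B.toWord = y :: b) :
    FreeGroup.norm ((FreeGroup.mk [y])⁻¹ * B * FreeGroup.mk [y]) ≤ FreeGroup.norm B := by
  have e : B = FreeGroup.mk [y] * FreeGroup.mk b := by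
    rw [mul_mk, ← mk_toWord (x := B), h]; rfl
  have e2 : (FreeGroup.mk [y])⁻¹ * B * FreeGroup.mk [y] = FreeGroup.mk (b ++ [y]) := by
    rw [e, ← mul_mk]; group
  rw [e2]
  refine norm_mk_le.trans ?_
  unfold FreeGroup.norm
  rw [h]; simp

lemma norm_conj_last (B : FreeGroup Y) (y : Y × Bool) (b : List (Y × Bool))
    (h : B.toWord = b ++ [(y.1, !y.2)]) :
    FreeGroup.norm ((FreeGroup.mk [y])⁻¹ * B * FreeGroup.mk [y]) ≤ FreeGroup.norm B := by
  have e0 : FreeGroup.mk [(y.1, !y.2)] = (FreeGroup.mk [y])⁻¹ := by
    rw [inv_mk]; rfl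
  have e : B = FreeGroup.mk b * (FreeGroup.mk [y])⁻¹ := by
    rw [← e0, mul_mk, ← mk_toWord (x := B), h]
  have e2 : (FreeGroup.mk [y])⁻¹ * B * FreeGroup.mk [y] = FreeGroup.mk ((y.1, !y.2) :: b) := by
    have : FreeGroup.mk ((y.1, !y.2) :: b) = FreeGroup.mk [(y.1, !y.2)] * FreeGroup.mk b := by
      rw [mul_mk]; rfl
    rw [this, e0, e]; group
  rw [e2]
  refine norm_mk_le.trans ?_
  unfold FreeGroup.norm
  rw [h]; simp

lemma norm_conj_both (A : FreeGroup Y) (y : Y × Bool) (a : List (Y × Bool))
    (h : A.toWord = y :: (a ++ [(y.1, !y.2)])) :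
    FreeGroup.norm ((FreeGroup.mk [y])⁻¹ * A * FreeGroup.mk [y]) + 2 ≤ FreeGroup.norm A := by
  have e0 : FreeGroup.mk [(y.1, !y.2)] = (FreeGroup.mk [y])⁻¹ := by
    rw [inv_mk]; rfl
  have e : A = FreeGroup.mk [y] * FreeGroup.mk a * (FreeGroup.mk [y])⁻¹ := by
    rw [← e0, mul_mk, mul_mk, ← mk_toWord (x := A), h]
    rfl
  have e2 : (FreeGroup.mk [y])⁻¹ * A * FreeGroup.mk [y] = FreeGroup.mk a := by
    rw [e]; group
  rw [e2]
  have h1 : FreeGroup.norm (FreeGroup.mk a) ≤ a.length := norm_mk_le
  have h2 : FreeGroup.norm A = a.length + 2 := by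
    unfold FreeGroup.norm
    rw [h]; simp
  omega

/-- In minimal position, if `A` is not cyclically reduced then the junctions with `B` do not cancel. -/
lemma junctions (A B : FreeGroup Y) (y : Y × Bool) (a : List (Y × Bool))
    (h : A.toWord = y :: (a ++ [(y.1, !y.2)]))
    (hmin : FreeGroup.norm A + FreeGroup.norm B ≤
      FreeGroup.norm ((FreeGroup.mk [y])⁻¹ * A * FreeGroup.mk [y])
        + FreeGroup.norm ((FreeGroup.mk [y])⁻¹ * B * FreeGroup.mk [y])) :
    J A.toWord B.toWord ∧ J B.toWord A.toWord := by
  have h1 := norm_conj_both A y a h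
  have h2 : FreeGroup.norm B + 2 ≤ FreeGroup.norm ((FreeGroup.mk [y])⁻¹ * B * FreeGroup.mk [y]) := by
    omega
  constructor
  · intro u hu v hv huv
    have hu' : u = (y.1, !y.2) := by
      rw [h] at hu
      have : y :: (a ++ [(y.1, !y.2)]) = (y :: a) ++ [(y.1, !y.2)] := rfl
      rw [this, List.getLast?_concat] at hu
      exact (Option.mem_some_iff.1 hu).symm
    rw [hu'] at huv ⊢
    simp only at huv ⊢
    have hvy : v ≠ y := by
      intro hvy
      rcases hBw : B.toWord with _ | ⟨t, b⟩
      · rw [hBw] at hv; simp at hv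
      · rw [hBw] at hv
        have : t = y := by
          have : t = v := by simpa using hv
          rw [this, hvy]
        rw [this] at hBw
        have := norm_conj_head B y b hBw
        omega
    by_contra hcon
    apply hvy
    refine Prod.ext huv.symm ?_
    cases h3 : v.2 <;> cases h4 : y.2 <;> simp_all
  · intro u hu v hv huv
    have hv' : v = y := by
      rw [h] at hv
      simpa using hv.symm
    subst hv'
    have huy : u ≠ (v.1, !v.2) := by
      intro huy
      obtain ⟨b, hb⟩ := List.getLast?_eq_some_iff.1 hu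
      rw [huy] at hb
      have := norm_conj_last B v b hb
      omega
    by_contra hcon
    apply huy
    refine Prod.ext huv ?_
    cases h3 : v.2 <;> cases h4 : u.2 <;> simp_all

lemma main_min (A U g p : FreeGroup Y) (hA : A ≠ 1) (hU : chi U = 1) (hU1 : U ≠ 1)
    (hAB : A * (U * A * U⁻¹) ≠ 1)
    (hp : Pos p.toWord) (h : A ^ 2 * (U * A * U⁻¹) ^ 2 = g * p * g⁻¹)
    (hmin1 : ∀ k : FreeGroup Y, FreeGroup.norm A + FreeGroup.norm (U * A * U⁻¹) ≤
      FreeGroup.norm (k⁻¹ * A * k) + FreeGroup.norm (k⁻¹ * (U * A * U⁻¹) * k))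
    (hmin2 : ∀ k : FreeGroup Y, FreeGroup.norm (k⁻¹ * A * k) + FreeGroup.norm (k⁻¹ * (U * A * U⁻¹) * k) ≤
      FreeGroup.norm A + FreeGroup.norm (U * A * U⁻¹) →
        FreeGroup.norm (A ^ 2 * (U * A * U⁻¹) ^ 2) ≤ FreeGroup.norm (k⁻¹ * (A ^ 2 * (U * A * U⁻¹) ^ 2) * k)) :
    False := by
  have hI := caseI A U g p hA hU hU1 hp h
  set B := U * A * U⁻¹ with hB
  obtain ⟨c, a0, ha1, ha2, ha3⟩ := sq_word A
  obtain ⟨d, b0, hb1, hb2, hb3⟩ := sq_word B
  have hBne : B ≠ 1 := by
    intro hB1
    apply hA
    have : A = U⁻¹ * B * U := by rw [hB]; group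
    rw [this, hB1]; group
  rcases c with _ | ⟨y, c⟩
  swap
  · have hw : A.toWord = y :: ((c ++ a0 ++ invRev c) ++ [(y.1, !y.2)]) := by
      rw [ha1, invRev_cons]
      simp [invRev]
    obtain ⟨h1, h2⟩ := junctions A B y _ hw (hmin1 _)
    exact hI h1 h2
  rcases d with _ | ⟨y, d⟩
  swap
  · have hw : B.toWord = y :: ((d ++ b0 ++ invRev d) ++ [(y.1, !y.2)]) := by
      rw [hb1, invRev_cons]
      simp [invRev]
    obtain ⟨h1, h2⟩ := junctions B A y _ hw (by
      have := hmin1 (FreeGroup.mk [y])
      omega)
    exact hI h2 h1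
  have hAw : A.toWord = a0 := by rw [ha1]; simp
  have hBw : B.toWord = b0 := by rw [hb1]; simp
  rw [← hAw] at ha3
  rw [← hBw] at hb3
  clear ha1 ha2 hb1 hb2
  have hAne : A.toWord ≠ [] := fun h => hA (toWord_eq_nil_iff.1 h)
  have hBne' : B.toWord ≠ [] := fun h => hBne (toWord_eq_nil_iff.1 h)
  have hlen : A.toWord.length = B.toWord.length := by
    apply le_antisymm
    · exact norm_le_of_conj A B U⁻¹ ha3 (by rw [hB]; group)
    · exact norm_le_of_conj B A U hb3 hB
  obtain ⟨x, z, x', h1, h2, h3⟩ := exists_cancel A.toWord B.toWord isReduced_toWord isReduced_toWord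
  have hlen2 : x.length = x'.length := by
    have e1 := congrArg List.length h1
    have e2 := congrArg List.length h2
    rw [List.length_append] at e1 e2
    rw [invRev_length] at e2
    omega
  have hx : x ≠ [] := by
    intro hx
    have hx' : x' = [] := by
      rw [hx] at hlen2
      exact List.length_eq_zero_iff.1 hlen2.symm
    rw [hx] at h1
    rw [hx'] at h2
    apply hAB
    have e1 : A = FreeGroup.mk z := by rw [← mk_toWord (x := A), h1]; simp
    have e2 : B = (FreeGroup.mk z)⁻¹ := by rw [← mk_toWord (x := B), h2, inv_mk]; simp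
    rw [e2, ← e1, mul_inv_cancel]
  have hx' : x' ≠ [] := by
    intro hx'
    rw [hx'] at hlen2
    exact hx (List.length_eq_zero_iff.1 hlen2)
  have hAA : IsReduced (A.toWord ++ A.toWord) := isReduced_append.2 ⟨ha3.1, ha3.1, ha3.2⟩
  have hBB : IsReduced (B.toWord ++ B.toWord) := isReduced_append.2 ⟨hb3.1, hb3.1, hb3.2⟩
  have hr1 : IsReduced (A.toWord ++ x) := by
    have : IsReduced (A.toWord ++ (x ++ z)) := by rw [← h1]; exact hAA
    rw [← List.append_assoc] at this
    exact (isReduced_append.1 this).1
  have hr2 : IsReduced (x' ++ B.toWord) := by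
    have : IsReduced ((invRev z ++ x') ++ B.toWord) := by rw [← h2]; exact hBB
    rw [List.append_assoc] at this
    exact (isReduced_append.1 this).2.1
  have hr3 : IsReduced (A.toWord ++ x ++ x') := hr1.append_overlap h3 hx
  have hr4 : IsReduced (A.toWord ++ x ++ x' ++ B.toWord) := hr3.append_overlap hr2 hx'
  have hW : (A ^ 2 * B ^ 2).toWord = A.toWord ++ x ++ x' ++ B.toWord := by
    have e1 : A ^ 2 * B ^ 2 = FreeGroup.mk (A.toWord ++ x ++ x' ++ B.toWord) := by
      rw [← mul_mk, ← mul_mk, ← mul_mk, mk_toWord, mk_toWord]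
      have e2 : A = FreeGroup.mk x * FreeGroup.mk z := by rw [mul_mk, ← h1, mk_toWord]
      have e3 : B = (FreeGroup.mk z)⁻¹ * FreeGroup.mk x' := by rw [inv_mk, mul_mk, ← h2, mk_toWord]
      calc A ^ 2 * B ^ 2 = A * (A * B) * B := by rw [pow_two, pow_two]; simp only [mul_assoc]
        _ = A * ((FreeGroup.mk x * FreeGroup.mk z) * ((FreeGroup.mk z)⁻¹ * FreeGroup.mk x')) * B := by
            rw [← e2, ← e3]
        _ = _ := by group
    rw [e1, toWord_mk_red hr4]
  have hjBA : J B.toWord A.toWord := by
    by_contra hcon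
    unfold J at hcon
    push Not at hcon
    obtain ⟨u, hu, v, hv, huv1, huv2⟩ := hcon
    -- `v` is the head of `A`, `u = v⁻¹` is the last letter of `B`
    have huv : u = (v.1, !v.2) := by
      refine Prod.ext huv1 ?_
      cases h4 : u.2 <;> cases h5 : v.2 <;> simp_all
    obtain ⟨b, hb⟩ := List.getLast?_eq_some_iff.1 hu
    rw [huv] at hb
    have ha : ∃ a, A.toWord = v :: a := by
      rcases hA' : A.toWord with _ | ⟨t, a⟩
      · exact absurd hA' hAne
      · rw [hA'] at hv
        have : t = v := by simpa using hv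
        exact ⟨a, by rw [this]⟩
    obtain ⟨a, ha⟩ := ha
    have n1 := norm_conj_head A v a ha
    have n2 := norm_conj_last B v b hb
    have n3 := norm_conj_both (A ^ 2 * B ^ 2) v (a ++ x ++ x' ++ b) (by
      rw [hW, hb]
      nth_rewrite 1 [ha]
      simp)
    have n4 := hmin2 (FreeGroup.mk [v]) (by omega)
    omega
  have hcyc : IsCyclicallyReduced (A ^ 2 * B ^ 2).toWord := by
    rw [hW]
    refine ⟨hr4, ?_⟩
    have : J (A.toWord ++ x ++ x' ++ B.toWord) (A.toWord ++ x ++ x' ++ B.toWord) := by
      rw [J_congr (L' := B.toWord) (M' := A.toWord)]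
      · exact hjBA
      · exact List.getLast?_append_of_ne_nil _ hBne'
      · rw [List.append_assoc, List.append_assoc]
        exact List.head?_append_of_ne_nil _ hAne
    exact this
  have hpos := pos_of_conj _ p g hcyc h hp
  rw [hW] at hpos
  have hpA : Pos A.toWord := fun z hz => hpos z (by simp [hz])
  have hpB : Pos B.toWord := fun z hz => hpos z (by simp [hz])
  exact hU1 (endgame A U hA hpA hpB hU)

/-- General theorem: no conjugate of `A² (U A U⁻¹)²` is positive. -/
theorem main (A U g p : FreeGroup Y) (hA : A ≠ 1) (hU : chi U = 1) (hU1 : U ≠ 1)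
    (hAB : A * (U * A * U⁻¹) ≠ 1)
    (hp : Pos p.toWord) (h : A ^ 2 * (U * A * U⁻¹) ^ 2 = g * p * g⁻¹) : False := by
  let f : FreeGroup Y → ℕ ×ₗ ℕ := fun k => toLex
    (FreeGroup.norm (k⁻¹ * A * k) + FreeGroup.norm (k⁻¹ * (U * A * U⁻¹) * k),
      FreeGroup.norm (k⁻¹ * (A ^ 2 * (U * A * U⁻¹) ^ 2) * k))
  obtain ⟨k, hk⟩ : ∃ k, ∀ k', f k ≤ f k' := by
    have := WellFounded.has_min (r := ((· < ·) : ℕ ×ₗ ℕ → ℕ ×ₗ ℕ → Prop)) wellFounded_lt (Set.range f)
      ⟨f 1, ⟨1, rfl⟩⟩
    obtain ⟨m, ⟨k, hk⟩, hm⟩ := this
    exact ⟨k, fun k' => by rw [hk]; exact not_lt.1 (hm _ ⟨k', rfl⟩)⟩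
  -- conjugate everything by `k`
  set A' := k⁻¹ * A * k with hA'
  set U' := k⁻¹ * U * k with hU'
  have eB : U' * A' * U'⁻¹ = k⁻¹ * (U * A * U⁻¹) * k := by rw [hA', hU']; group
  have eW : A' ^ 2 * (U' * A' * U'⁻¹) ^ 2 = k⁻¹ * (A ^ 2 * (U * A * U⁻¹) ^ 2) * k := by
    rw [eB, hA', pow_two, pow_two, pow_two, pow_two]; simp only [mul_assoc, mul_inv_cancel_left]
  have conj_A : ∀ t : FreeGroup Y, t⁻¹ * A' * t = (k * t)⁻¹ * A * (k * t) := by
    intro t; rw [hA']; group
  have conj_B : ∀ t : FreeGroup Y, t⁻¹ * (U' * A' * U'⁻¹) * t = (k * t)⁻¹ * (U * A * U⁻¹) * (k * t) := by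
    intro t; rw [eB]; group
  have conj_W : ∀ t : FreeGroup Y, t⁻¹ * (A' ^ 2 * (U' * A' * U'⁻¹) ^ 2) * t
      = (k * t)⁻¹ * (A ^ 2 * (U * A * U⁻¹) ^ 2) * (k * t) := by
    intro t; rw [eW]; group
  refine main_min A' U' (k⁻¹ * g) p ?_ ?_ ?_ ?_ hp ?_ ?_ ?_
  · intro h1
    apply hA
    have : A = k * A' * k⁻¹ := by rw [hA']; group
    rw [this, h1]; group
  · rw [hU', MonoidHom.map_mul, MonoidHom.map_mul, MonoidHom.map_inv, hU]
    simp
  · intro h1
    apply hU1
    have : U = k * U' * k⁻¹ := by rw [hU']; group
    rw [this, h1]; group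
  · intro h1
    apply hAB
    have : A * (U * A * U⁻¹) = k * (A' * (U' * A' * U'⁻¹)) * k⁻¹ := by rw [eB, hA']; group
    rw [this, h1]; group
  · rw [eW, h]; group
  · intro t
    have := hk (k * t)
    rw [conj_A, conj_B, eB]
    rw [Prod.Lex.le_iff] at this
    simp only [f, ofLex_toLex] at this
    rw [← hA'] at this
    omega
  · intro t ht
    have := hk (k * t)
    rw [conj_A, conj_B, eB] at ht
    rw [conj_W, eW]
    rw [Prod.Lex.le_iff] at this
    simp only [f, ofLex_toLex] at this
    rw [← hA'] at this
    omega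

end Pool.Agent.Helper49.FreeGroupPos
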