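import Mathlib

/-!
# A locally soluble non-periodic product of two locally finite groups

`Gk k`: permutations `g` of `ℤ` preserving parity, which are isometries for the `3`-adic metric and
which are of the form `x ↦ ± x + c` on each residue class modulo `3 ^ k`.
-/

namespace Pool.Agent.Helper49.LSP

open Equiv

lemma ai (g : Perm ℤ) (x : ℤ) : g (g⁻¹ x) = x := g.apply_symm_apply x

lemma ia (g : Perm ℤ) (x : ℤ) : g⁻¹ (g x) = x := g.symm_apply_apply x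

def Par (g : Perm ℤ) : Prop := ∀ x, (2 : ℤ) ∣ g x - x

def Iso3 (g : Perm ℤ) : Prop :=
  ∀ (i : ℕ) (x y : ℤ), (3 : ℤ) ^ i ∣ x - y ↔ (3 : ℤ) ^ i ∣ g x - g y

def Lvl (k : ℕ) (g : Perm ℤ) : Prop :=
  ∀ x : ℤ, ∃ e : ℤ, (e = 1 ∨ e = -1) ∧ ∀ y : ℤ, g (x + 3 ^ k * y) = g x + e * (3 ^ k * y)

lemma Par.mul {g h : Perm ℤ} (hg : Par g) (hh : Par h) : Par (g * h) := by
  intro x
  have h1 := hg (h x)
  have h2 := hh x
  rw [Perm.mul_apply]
  have : g (h x) - x = (g (h x) - h x) + (h x - x) := by ring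
  rw [this]
  exact dvd_add h1 h2

lemma Par.inv {g : Perm ℤ} (hg : Par g) : Par g⁻¹ := by
  intro x
  have h1 := hg (g⁻¹ x)
  rw [ai] at h1
  rw [← dvd_neg]
  simpa using h1

lemma Iso3.mul {g h : Perm ℤ} (hg : Iso3 g) (hh : Iso3 h) : Iso3 (g * h) := by
  intro i x y
  rw [Perm.mul_apply, Perm.mul_apply, hh i x y, hg i (h x) (h y)]

lemma Iso3.inv {g : Perm ℤ} (hg : Iso3 g) : Iso3 g⁻¹ := by
  intro i x y
  rw [hg i (g⁻¹ x) (g⁻¹ y), ai, ai]

lemma Lvl.mul {k : ℕ} {g h : Perm ℤ} (hg : Lvl k g) (hh : Lvl k h) : Lvl k (g * h) := by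
  intro x
  obtain ⟨e, he, h1⟩ := hh x
  obtain ⟨f, hf, h2⟩ := hg (h x)
  refine ⟨f * e, ?_, ?_⟩
  · rcases he with he | he <;> rcases hf with hf | hf <;> subst he <;> subst hf <;> simp
  · intro y
    rw [Perm.mul_apply, Perm.mul_apply, h1 y]
    have := h2 (e * y)
    rw [show (3 : ℤ) ^ k * (e * y) = e * (3 ^ k * y) by ring] at this
    rw [this]
    ring

lemma Lvl.inv {k : ℕ} {g : Perm ℤ} (hg : Lvl k g) : Lvl k g⁻¹ := by
  intro x
  obtain ⟨e, he, h1⟩ := hg (g⁻¹ x)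
  rw [ai] at h1
  refine ⟨e, he, ?_⟩
  intro y
  rw [Perm.inv_eq_iff_eq]
  have h2 := h1 (e * y)
  have h3 : e * e = 1 := by rcases he with he | he <;> subst he <;> simp
  rw [show g⁻¹ x + e * (3 ^ k * y) = g⁻¹ x + 3 ^ k * (e * y) by ring, h2]
  rw [show x + e * (3 ^ k * (e * y)) = x + (e * e) * (3 ^ k * y) by ring, h3, one_mul]

lemma Lvl.mono {k l : ℕ} (hkl : k ≤ l) {g : Perm ℤ} (hg : Lvl k g) : Lvl l g := by
  obtain ⟨d, rfl⟩ := Nat.exists_eq_add_of_le hkl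
  intro x
  obtain ⟨e, he, h1⟩ := hg x
  refine ⟨e, he, ?_⟩
  intro y
  have := h1 (3 ^ d * y)
  rw [show (3 : ℤ) ^ k * (3 ^ d * y) = 3 ^ (k + d) * y by rw [pow_add]; ring] at this
  exact this

/-- The group of level `k`. -/
def Gk (k : ℕ) : Subgroup (Perm ℤ) where
  carrier := {g | Par g ∧ Iso3 g ∧ Lvl k g}
  mul_mem' := by
    rintro g h ⟨h1, h2, h3⟩ ⟨h4, h5, h6⟩
    exact ⟨h1.mul h4, h2.mul h5, h3.mul h6⟩
  one_mem' := by
    refine ⟨fun x => by simp, fun i x y => by simp, fun x => ⟨1, Or.inl rfl, fun y => by simp⟩⟩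
  inv_mem' := by
    rintro g ⟨h1, h2, h3⟩
    exact ⟨h1.inv, h2.inv, h3.inv⟩

lemma mem_Gk {k : ℕ} {g : Perm ℤ} : g ∈ Gk k ↔ Par g ∧ Iso3 g ∧ Lvl k g := Iff.rfl

lemma Gk_mono {k l : ℕ} (hkl : k ≤ l) : Gk k ≤ Gk l := fun _ hg => ⟨hg.1, hg.2.1, hg.2.2.mono hkl⟩

/-- even representatives -/
def Ev (k : ℕ) (x : ℤ) : Prop := (2 : ℤ) ∣ x ∧ |x| < 3 ^ k

lemma odd3 (k : ℕ) : ∃ c : ℤ, (3 : ℤ) ^ k = 2 * c + 1 := by
  have : Odd ((3 : ℤ) ^ k) := Odd.pow (by decide)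
  exact this

lemma ev_exists (k : ℕ) (x : ℤ) : ∃ p, Ev k p ∧ (3 : ℤ) ^ k ∣ x - p := by
  obtain ⟨c, hc⟩ := odd3 k
  have hpos : (0 : ℤ) < 3 ^ k := by positivity
  set m : ℤ := 3 ^ k with hm
  have h1 := Int.emod_nonneg x hpos.ne'
  have h2 := Int.emod_lt_of_pos x hpos
  have h3 := Int.emod_add_mul_ediv x m
  set r := x % m with hr
  set q := x / m with hq
  rcases Int.even_or_odd' r with ⟨s, hs | hs⟩
  · refine ⟨r, ⟨⟨s, hs⟩, ?_⟩, ⟨q, by linarith⟩⟩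
    rw [abs_of_nonneg h1]; exact h2
  · refine ⟨r - m, ⟨⟨s - c, by rw [hs, hc]; ring⟩, ?_⟩, ⟨q + 1, by linear_combination -h3⟩⟩
    rw [abs_lt]
    constructor <;> omega

lemma ev_unique {k : ℕ} {p p' : ℤ} (hp : Ev k p) (hp' : Ev k p') (h : (3 : ℤ) ^ k ∣ p - p') : p = p' := by
  obtain ⟨c, hc⟩ := odd3 k
  obtain ⟨s, hs⟩ := hp.1
  obtain ⟨s', hs'⟩ := hp'.1
  obtain ⟨d, hd⟩ := h
  have h1 := abs_lt.1 hp.2
  have h2 := abs_lt.1 hp'.2
  have hpos : (0 : ℤ) < 3 ^ k := by positivity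
  set m : ℤ := 3 ^ k with hm
  have hd1 : d < 2 := by
    by_contra hcon
    push Not at hcon
    nlinarith
  have hd2 : -2 < d := by
    by_contra hcon
    push Not at hcon
    nlinarith
  have hd3 : d = 0 ∨ d = 1 ∨ d = -1 := by omega
  rcases hd3 with h3 | h3 | h3
  · subst h3; linarith
  · subst h3; omega
  · subst h3; omega

open Classical in
/-- the even representative of the class of `x` modulo `3 ^ k` -/
noncomputable def E (k : ℕ) (x : ℤ) : ℤ := (ev_exists k x).choose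

lemma E_ev (k : ℕ) (x : ℤ) : Ev k (E k x) := (ev_exists k x).choose_spec.1

lemma E_dvd (k : ℕ) (x : ℤ) : (3 : ℤ) ^ k ∣ x - E k x := (ev_exists k x).choose_spec.2

lemma E_eq {k : ℕ} {x p : ℤ} (hp : Ev k p) (h : (3 : ℤ) ^ k ∣ x - p) : E k x = p := by
  apply ev_unique (E_ev k x) hp
  have h1 := E_dvd k x
  have : E k x - p = (x - p) - (x - E k x) := by ring
  rw [this]
  exact dvd_sub h h1

lemma E_congr {k : ℕ} {x y : ℤ} (h : (3 : ℤ) ^ k ∣ x - y) : E k x = E k y := by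
  apply E_eq (E_ev k y)
  have h1 := E_dvd k y
  have : x - E k y = (x - y) + (y - E k y) := by ring
  rw [this]
  exact dvd_add h h1

/-- The finite group `A_k`. -/
def Ak (k : ℕ) : Subgroup (Perm ℤ) where
  carrier := {g | g ∈ Gk k ∧ ∀ x, Ev k x → Ev k (g x)}
  mul_mem' := by
    rintro g h ⟨h1, h2⟩ ⟨h3, h4⟩
    exact ⟨mul_mem h1 h3, fun x hx => h2 _ (h4 x hx)⟩
  one_mem' := ⟨one_mem _, fun x hx => hx⟩
  inv_mem' := by
    rintro g ⟨h1, h2⟩
    refine ⟨inv_mem h1, fun x hx => ?_⟩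
    -- `g (E (g⁻¹ x)) = x`
    have h3 : g (E k (g⁻¹ x)) = x := by
      apply ev_unique (h2 _ (E_ev k _)) hx
      have h4 := (h1.2.1 k (g⁻¹ x) (E k (g⁻¹ x))).1 (E_dvd k _)
      rw [ai] at h4
      rw [← dvd_neg]
      simpa using h4
    have h5 : g⁻¹ x = E k (g⁻¹ x) := by
      rw [Perm.inv_eq_iff_eq]
      exact h3.symm
    rw [h5]
    exact E_ev k _

lemma mem_Ak {k : ℕ} {g : Perm ℤ} : g ∈ Ak k ↔ g ∈ Gk k ∧ ∀ x, Ev k x → Ev k (g x) := Iff.rfl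

lemma Ak_succ (k : ℕ) : Ak k ≤ Ak (k + 1) := by
  rintro g ⟨h1, h2⟩
  refine ⟨Gk_mono (Nat.le_succ k) h1, fun x hx => ?_⟩
  have hpos : (0 : ℤ) < 3 ^ k := by positivity
  obtain ⟨c, hc⟩ := odd3 k
  obtain ⟨y, hy⟩ := E_dvd k x
  have hE := E_ev k x
  have hgE := h2 _ hE
  obtain ⟨e, he, h3⟩ := h1.2.2 (E k x)
  have h4 : x = E k x + 3 ^ k * y := by linarith
  have h5 : g x = g (E k x) + e * (3 ^ k * y) := by
    conv_lhs => rw [h4]
    exact h3 y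
  have hxa := abs_lt.1 hx.2
  have hEa := abs_lt.1 hE.2
  have hga := abs_lt.1 hgE.2
  rw [pow_succ] at hxa
  set m : ℤ := 3 ^ k with hm
  obtain ⟨s, hs⟩ := hx.1
  obtain ⟨s', hs'⟩ := hE.1
  -- `y` is even
  have hyev : ∃ z, y = 2 * z := by
    refine ⟨s - s' - c * y, ?_⟩
    have : 2 * s - 2 * s' = (2 * c + 1) * y := by rw [← hc, ← hs, ← hs']; linarith
    linear_combination -this
  obtain ⟨z, hz⟩ := hyev
  have hz1 : z < 2 := by
    by_contra hcon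
    push Not at hcon
    nlinarith
  have hz2 : -2 < z := by
    by_contra hcon
    push Not at hcon
    nlinarith
  constructor
  · have := h1.1 x
    have h6 := hx.1
    have h7 : g x = (g x - x) + x := by ring
    rw [h7]
    exact dvd_add this h6
  · rw [pow_succ, ← hm, h5, abs_lt]
    have hz3 : z = 0 ∨ z = 1 ∨ z = -1 := by omega
    rcases he with he | he <;> rcases hz3 with h | h | h <;> subst he <;> subst h <;> subst hz <;>
      constructor <;> linarith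

lemma Ak_mono {k l : ℕ} (hkl : k ≤ l) : Ak k ≤ Ak l := by
  obtain ⟨d, rfl⟩ := Nat.exists_eq_add_of_le hkl
  induction d with
  | zero => exact le_rfl
  | succ d ih => exact (ih (by omega)).trans (Ak_succ (k + d))

/-- elements of `A_k` have finite order -/
lemma Ak_fin {k : ℕ} {g : Perm ℤ} (hg : g ∈ Ak k) : IsOfFinOrder g := by
  have hfin : Finite {x : ℤ // Ev k x} := by
    apply Set.Finite.subset (Set.finite_Ioo (-(3 : ℤ) ^ k) (3 ^ k))
    intro x hx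
    exact abs_lt.1 hx.2
  have hiff : ∀ x, Ev k (g x) ↔ Ev k x := by
    intro x
    refine ⟨fun h => ?_, hg.2 x⟩
    have := (inv_mem hg).2 _ h
    rwa [ia] at this
  have h1 : IsOfFinOrder (g.subtypePerm (p := Ev k) hiff) := isOfFinOrder_of_finite _
  rw [isOfFinOrder_iff_pow_eq_one] at h1 ⊢
  obtain ⟨N, hN, h2⟩ := h1
  have h3 : ∀ x, Ev k x → (g ^ N) x = x := by
    intro x hx
    have h4 := congrArg (fun f => ((f ⟨x, hx⟩ : {x : ℤ // Ev k x}) : ℤ)) h2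
    simpa [Perm.subtypePerm_pow] using h4
  refine ⟨N * 2, by omega, ?_⟩
  rw [pow_mul, pow_two]
  ext x
  have h5 : g ^ N ∈ Gk k := pow_mem hg.1 N
  obtain ⟨e, he, h6⟩ := h5.2.2 (E k x)
  obtain ⟨y, hy⟩ := E_dvd k x
  have h7 : x = E k x + 3 ^ k * y := by linarith
  rw [Perm.mul_apply, Perm.one_apply]
  rw [h3 _ (E_ev k x)] at h6
  have h8 : (g ^ N) x = E k x + 3 ^ k * (e * y) := by
    conv_lhs => rw [h7]
    rw [h6 y]; ring
  rw [h8, h6]
  conv_rhs => rw [h7]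
  have h9 : e * e = 1 := by rcases he with he | he <;> subst he <;> simp
  linear_combination 3 ^ k * y * h9

end Pool.Agent.Helper49.LSP
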