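import Pool.Agent.Helper49.LSPDefs

namespace Pool.Agent.Helper49.LSP

open Equiv

lemma bounded {k : ℕ} {g : Perm ℤ} (hg : Lvl k g) : ∃ C : ℤ, ∀ x, |g x| ≤ |x| + C := by
  refine ⟨∑ r ∈ Finset.range (3 ^ k), (|g (r : ℤ)| + |(r : ℤ)|), fun x => ?_⟩
  have hpos : (0 : ℤ) < 3 ^ k := by positivity
  have h1 := Int.emod_nonneg x hpos.ne'
  have h2 := Int.emod_lt_of_pos x hpos
  have h3 := Int.emod_add_mul_ediv x (3 ^ k)
  set r := x % 3 ^ k with hr
  set q := x / 3 ^ k with hq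
  obtain ⟨s, hs⟩ := Int.eq_ofNat_of_zero_le h1
  have hsm : s ∈ Finset.range (3 ^ k) := by
    rw [Finset.mem_range]
    have : (s : ℤ) < 3 ^ k := by rw [← hs]; exact h2
    exact_mod_cast this
  have h4 : |g (s : ℤ)| + |(s : ℤ)| ≤ ∑ r ∈ Finset.range (3 ^ k), (|g (r : ℤ)| + |(r : ℤ)|) :=
    Finset.single_le_sum (f := fun r : ℕ => |g (r : ℤ)| + |(r : ℤ)|)
      (fun i _ => by positivity) hsm
  obtain ⟨e, he, h5⟩ := hg r
  have h6 : g x = g r + e * (3 ^ k * q) := by
    conv_lhs => rw [← h3]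
    exact h5 q
  have h7 : 3 ^ k * q = x - r := by linarith
  rw [h7] at h6
  have h8 : |g x| ≤ |g r| + |x - r| := by
    rw [h6]
    refine (abs_add_le _ _).trans ?_
    rcases he with he | he <;> subst he
    · rw [one_mul]
    · rw [neg_one_mul, abs_neg]
  have h9 : |x - r| ≤ |x| + |r| := abs_sub _ _
  rw [hs] at h8 h9
  linarith

open Classical in
/-- reflect the classes satisfying `c` at their even representative -/
noncomputable def refl (k : ℕ) (c : ℤ → Prop) (x : ℤ) : ℤ := if c x then 2 * E k x - x else x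

lemma refl_dvd (k : ℕ) (c : ℤ → Prop) (x : ℤ) : (3 : ℤ) ^ k ∣ refl k c x - x := by
  unfold refl
  split_ifs
  · have := E_dvd k x
    have h : 2 * E k x - x - x = (-2) * (x - E k x) := by ring
    rw [h]
    exact Dvd.dvd.mul_left this _
  · simp

lemma refl_refl (k : ℕ) (c : ℤ → Prop) (hc : ∀ x y, (3 : ℤ) ^ k ∣ x - y → (c x ↔ c y)) (x : ℤ) :
    refl k c (refl k c x) = x := by
  have h1 := refl_dvd k c x
  have h2 := hc _ _ h1
  have h3 := E_congr h1
  by_cases h : c x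
  · have h4 : c (refl k c x) := h2.2 h
    have h5 : refl k c (refl k c x) = 2 * E k (refl k c x) - refl k c x := by
      rw [refl, if_pos h4]
    have h6 : refl k c x = 2 * E k x - x := by
      rw [refl, if_pos h]
    rw [h5, h3, h6]
    ring
  · have h4 : ¬ c (refl k c x) := fun h' => h (h2.1 h')
    have h5 : refl k c (refl k c x) = refl k c x := by
      rw [refl, if_neg h4]
    have h6 : refl k c x = x := by
      rw [refl, if_neg h]
    rw [h5, h6]

lemma refl_iso (k : ℕ) (c : ℤ → Prop) (hc : ∀ x y, (3 : ℤ) ^ k ∣ x - y → (c x ↔ c y)) (i : ℕ)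
    (x y : ℤ) (h : (3 : ℤ) ^ i ∣ x - y) : (3 : ℤ) ^ i ∣ refl k c x - refl k c y := by
  by_cases hik : i ≤ k
  · have h1 : (3 : ℤ) ^ i ∣ refl k c x - x := (pow_dvd_pow _ hik).trans (refl_dvd k c x)
    have h2 : (3 : ℤ) ^ i ∣ refl k c y - y := (pow_dvd_pow _ hik).trans (refl_dvd k c y)
    have h3 : refl k c x - refl k c y = (refl k c x - x) + (x - y) - (refl k c y - y) := by ring
    rw [h3]
    exact dvd_sub (dvd_add h1 h) h2
  · have h1 : (3 : ℤ) ^ k ∣ x - y := (pow_dvd_pow _ (by omega)).trans h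
    have h2 := hc x y h1
    have h3 := E_congr h1
    unfold refl
    by_cases hx : c x
    · rw [if_pos hx, if_pos (h2.1 hx), h3]
      have : 2 * E k y - x - (2 * E k y - y) = -(x - y) := by ring
      rw [this]
      exact (dvd_neg).2 h
    · rw [if_neg hx, if_neg (fun h' => hx (h2.2 h'))]
      exact h

/-- the reflection as a permutation -/
noncomputable def reflP (k : ℕ) (c : ℤ → Prop) (hc : ∀ x y, (3 : ℤ) ^ k ∣ x - y → (c x ↔ c y)) :
    Perm ℤ where
  toFun := refl k c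
  invFun := refl k c
  left_inv := refl_refl k c hc
  right_inv := refl_refl k c hc

lemma reflP_mem (k : ℕ) (c : ℤ → Prop) (hc : ∀ x y, (3 : ℤ) ^ k ∣ x - y → (c x ↔ c y)) :
    reflP k c hc ∈ Ak k := by
  have happ : ∀ x, reflP k c hc x = refl k c x := fun x => rfl
  refine ⟨⟨?_, ?_, ?_⟩, ?_⟩
  · intro x
    rw [happ]
    unfold refl
    split_ifs
    · exact ⟨E k x - x, by ring⟩
    · simp
  · intro i x y
    rw [happ, happ]
    refine ⟨refl_iso k c hc i x y, fun h => ?_⟩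
    have := refl_iso k c hc i _ _ h
    rwa [refl_refl k c hc, refl_refl k c hc] at this
  · intro x
    by_cases hx : c x
    · refine ⟨-1, Or.inr rfl, fun y => ?_⟩
      have h1 : (3 : ℤ) ^ k ∣ (x + 3 ^ k * y) - x := ⟨y, by ring⟩
      rw [happ, happ, refl, refl, if_pos hx, if_pos ((hc _ _ h1).2 hx), E_congr h1]
      ring
    · refine ⟨1, Or.inl rfl, fun y => ?_⟩
      have h1 : (3 : ℤ) ^ k ∣ (x + 3 ^ k * y) - x := ⟨y, by ring⟩
      rw [happ, happ, refl, refl, if_neg hx, if_neg (fun h => hx ((hc _ _ h1).1 h))]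
      ring
  · intro x hx
    rw [happ]
    have h1 : E k x = x := E_eq hx (by simp)
    unfold refl
    rw [h1]
    split_ifs
    · have : 2 * x - x = x := by ring
      rw [this]; exact hx
    · exact hx

/-- `x ↦ x + 1` -/
def tau : Perm ℤ := Equiv.addRight (1 : ℤ)

lemma tau_apply (x : ℤ) : tau x = x + 1 := rfl

lemma tau_inv_apply (x : ℤ) : tau⁻¹ x = x - 1 := rfl

lemma tau_conj {k : ℕ} {g : Perm ℤ} (hg : g ∈ Gk k) : tau * g * tau⁻¹ ∈ Gk k := by
  have happ : ∀ x, (tau * g * tau⁻¹) x = g (x - 1) + 1 := fun x => rfl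
  refine ⟨?_, ?_, ?_⟩
  · intro x
    rw [happ]
    have := hg.1 (x - 1)
    have h : g (x - 1) + 1 - x = g (x - 1) - (x - 1) := by ring
    rw [h]; exact this
  · intro i x y
    rw [happ, happ]
    have := hg.2.1 i (x - 1) (y - 1)
    have h1 : x - 1 - (y - 1) = x - y := by ring
    have h2 : g (x - 1) + 1 - (g (y - 1) + 1) = g (x - 1) - g (y - 1) := by ring
    rw [h1] at this
    rw [h2]; exact this
  · intro x
    obtain ⟨e, he, h1⟩ := hg.2.2 (x - 1)
    refine ⟨e, he, fun y => ?_⟩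
    rw [happ, happ]
    have := h1 y
    rw [show x - 1 + 3 ^ k * y = x + 3 ^ k * y - 1 by ring] at this
    rw [this]
    ring

lemma tau_conj' {k : ℕ} {g : Perm ℤ} (hg : g ∈ Gk k) : tau⁻¹ * g * tau ∈ Gk k := by
  have happ : ∀ x, (tau⁻¹ * g * tau) x = g (x + 1) - 1 := fun x => rfl
  refine ⟨?_, ?_, ?_⟩
  · intro x
    rw [happ]
    have := hg.1 (x + 1)
    have h : g (x + 1) - 1 - x = g (x + 1) - (x + 1) := by ring
    rw [h]; exact this
  · intro i x y
    rw [happ, happ]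
    have := hg.2.1 i (x + 1) (y + 1)
    have h1 : x + 1 - (y + 1) = x - y := by ring
    have h2 : g (x + 1) - 1 - (g (y + 1) - 1) = g (x + 1) - g (y + 1) := by ring
    rw [h1] at this
    rw [h2]; exact this
  · intro x
    obtain ⟨e, he, h1⟩ := hg.2.2 (x + 1)
    refine ⟨e, he, fun y => ?_⟩
    rw [happ, happ]
    have := h1 y
    rw [show x + 1 + 3 ^ k * y = x + 3 ^ k * y + 1 by ring] at this
    rw [this]
    ring

/-- the key arithmetic fact -/
lemma key {m P Y Q : ℤ} (hm : ∃ c : ℤ, m = 2 * c + 1) (hm0 : 0 < m) (hP2 : (2 : ℤ) ∣ P) (hP : |P| < m)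
    (hY2 : (2 : ℤ) ∣ Y - 1) (hY : |Y| < 2 * m) (hYP : m ∣ Y - P)
    (hQ2 : (2 : ℤ) ∣ Q - 1) (hQ : |Q - 1| < m) (hQP : m ∣ Q - P) (hne : Y ≠ Q) :
    2 * P - Y = Q := by
  obtain ⟨c, hc⟩ := hm
  obtain ⟨p, hp⟩ := hP2
  obtain ⟨y, hy⟩ := hY2
  obtain ⟨q, hq⟩ := hQ2
  obtain ⟨d, hd⟩ := hYP
  obtain ⟨f, hf⟩ := hQP
  have h1 := abs_lt.1 hP
  have h2 := abs_lt.1 hY
  have h3 := abs_lt.1 hQ
  -- `d` and `f` are odd
  have hd' : ∃ d', d = 2 * d' + 1 := by
    refine ⟨y - p - c * d, ?_⟩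
    have h4 : 2 * y + 1 - 2 * p = (2 * c + 1) * d := by rw [← hc, ← hd, ← hp]; linarith
    linear_combination -h4
  have hf' : ∃ f', f = 2 * f' + 1 := by
    refine ⟨q - p - c * f, ?_⟩
    have h4 : 2 * q + 1 - 2 * p = (2 * c + 1) * f := by rw [← hc, ← hf, ← hp]; linarith
    linear_combination -h4
  obtain ⟨d', hd'⟩ := hd'
  obtain ⟨f', hf'⟩ := hf'
  have hd1 : d < 3 := by
    by_contra hcon
    push Not at hcon
    nlinarith
  have hd2 : -3 < d := by
    by_contra hcon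
    push Not at hcon
    nlinarith
  have hf1 : f < 3 := by
    by_contra hcon
    push Not at hcon
    nlinarith
  have hf2 : -3 < f := by
    by_contra hcon
    push Not at hcon
    nlinarith
  have hd3 : d = 1 ∨ d = -1 := by omega
  have hf3 : f = 1 ∨ f = -1 := by omega
  rcases hd3 with h | h <;> rcases hf3 with h' | h' <;> rw [h] at hd <;> rw [h'] at hf
  · exfalso; apply hne; linarith
  · linarith
  · linarith
  · exfalso; apply hne; linarith

lemma factor {i : ℕ} {g : Perm ℤ} (hg : g ∈ Gk i) :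
    ∃ k, ∃ a ∈ Ak k, ∃ b, tau⁻¹ * b * tau ∈ Ak k ∧ b ∈ Gk k ∧ g = a * b := by
  obtain ⟨C, hC⟩ := bounded hg.2.2
  -- choose the level
  obtain ⟨k, hik, hCk⟩ : ∃ k, i ≤ k ∧ C < 3 ^ k := by
    refine ⟨i + C.toNat, by omega, ?_⟩
    have h1 : (C.toNat : ℤ) < 3 ^ C.toNat := by
      have : C.toNat < 3 ^ C.toNat := Nat.lt_pow_self (by norm_num)
      exact_mod_cast this
    have h2 : (3 : ℤ) ^ C.toNat ≤ 3 ^ (i + C.toNat) := pow_le_pow_right₀ (by norm_num) (by omega)
    have h3 : C ≤ C.toNat := Int.self_le_toNat C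
    linarith
  have hgk : g ∈ Gk k := Gk_mono hik hg
  have hpos : (0 : ℤ) < 3 ^ k := by positivity
  set Q : ℤ → ℤ := fun x => E k (x - 1) + 1 with hQ
  have hQc : ∀ x y, (3 : ℤ) ^ k ∣ x - y → Q x = Q y := by
    intro x y h
    simp only [hQ]
    rw [E_congr (show (3 : ℤ) ^ k ∣ (x - 1) - (y - 1) by
      have : x - 1 - (y - 1) = x - y := by ring
      rw [this]; exact h)]
  set c : ℤ → Prop := fun x => g (Q (g⁻¹ x)) ≠ Q x with hcdef
  have hc : ∀ x y, (3 : ℤ) ^ k ∣ x - y → (c x ↔ c y) := by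
    intro x y h
    simp only [hcdef]
    have h1 : (3 : ℤ) ^ k ∣ g⁻¹ x - g⁻¹ y := ((inv_mem hgk).2.1 k x y).1 h
    rw [hQc x y h, hQc _ _ h1]
  set a := reflP k c hc with ha
  have haA : a ∈ Ak k := reflP_mem k c hc
  have hainv : a⁻¹ * g ∈ Gk k := mul_mem (inv_mem haA.1) hgk
  refine ⟨k, a, haA, a⁻¹ * g, ⟨tau_conj' hainv, ?_⟩, hainv, by group⟩
  intro x hx
  have happ : (tau⁻¹ * (a⁻¹ * g) * tau) x = refl k c (g (x + 1)) - 1 := rfl
  rw [happ]
  set X := x + 1 with hX
  have hxX : x = X - 1 := by rw [hX]; ring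
  rw [hxX] at hx
  set Y := g X with hY
  have hQX : Q X = X := by
    simp only [hQ]
    rw [E_eq hx (by simp)]
    ring
  have hcY : c Y ↔ Y ≠ Q Y := by
    simp only [hcdef]
    rw [hY, ia, hQX]
  by_cases h : c Y
  · have hne : Y ≠ Q Y := hcY.1 h
    have hEY := E_ev k Y
    have hEQ := E_ev k (Y - 1)
    have hxa := abs_lt.1 hx.2
    have h5 : (2 : ℤ) ∣ Y - 1 := by
      have h6 := hgk.1 X
      have h7 : Y - 1 = (g X - X) + (X - 1) := by rw [hY]; ring
      rw [h7]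
      exact dvd_add h6 hx.1
    have h8 : |Y| < 2 * 3 ^ k := by
      have h9 := hC X
      have h10 : |X| ≤ 3 ^ k := by
        rw [abs_le]
        constructor
        · linarith
        · linarith
      linarith
    have h11 : 2 * E k Y - Y = Q Y := by
      apply key (odd3 k) hpos hEY.1 hEY.2 h5 h8 (E_dvd k Y)
      · simp only [hQ]
        have : E k (Y - 1) + 1 - 1 = E k (Y - 1) := by ring
        rw [this]; exact hEQ.1
      · simp only [hQ]
        have : E k (Y - 1) + 1 - 1 = E k (Y - 1) := by ring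
        rw [this]; exact hEQ.2
      · simp only [hQ]
        have h12 := E_dvd k (Y - 1)
        have h13 := E_dvd k Y
        have : E k (Y - 1) + 1 - E k Y = (Y - E k Y) - (Y - 1 - E k (Y - 1)) := by ring
        rw [this]
        exact dvd_sub h13 h12
      · exact hne
    have h12 : refl k c Y = Q Y := by rw [refl, if_pos h, h11]
    rw [h12]
    simp only [hQ]
    have : E k (Y - 1) + 1 - 1 = E k (Y - 1) := by ring
    rw [this]; exact hEQ
  · have h12 : refl k c Y = Y := by rw [refl, if_neg h]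
    have h13 : Y = Q Y := by
      by_contra hcon
      exact h (hcY.2 hcon)
    rw [h12, h13]
    simp only [hQ]
    have : E k (Y - 1) + 1 - 1 = E k (Y - 1) := by ring
    rw [this]; exact E_ev k _

end Pool.Agent.Helper49.LSP
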