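import Pool.Agent.Helper49.LSPDefs

namespace Pool.Agent.Helper49.LSP

open Equiv

lemma solvable_perm3 : Group.IsSolvable (ℤ → Perm (ZMod 3)) := by
  let s : (ℤ → Perm (ZMod 3)) →* (ℤ → ℤˣ) :=
    MonoidHom.pi (fun x => (Perm.sign (α := ZMod 3)).comp (Pi.evalMonoidHom _ x))
  have hker : Group.IsSolvable s.ker := by
    apply Group.isSolvable_of_comm
    rintro ⟨a, ha⟩ ⟨b, hb⟩
    have hdec : ∀ a b : Perm (ZMod 3), Perm.sign a = 1 → Perm.sign b = 1 → a * b = b * a := by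
      decide
    apply Subtype.ext
    ext x : 1
    apply hdec
    · exact congrFun ha x
    · exact congrFun hb x
  have h2 : Group.IsSolvable (ℤ → ℤˣ) := inferInstance
  exact Group.isSolvable_of_ker_le_range s.ker.subtype s (by simp)

/-- the subgroup acting trivially modulo `3 ^ j` -/
def K (k j : ℕ) : Subgroup (Perm ℤ) where
  carrier := {g | g ∈ Gk k ∧ ∀ x, (3 : ℤ) ^ j ∣ g x - x}
  mul_mem' := by
    rintro g h ⟨h1, h2⟩ ⟨h3, h4⟩
    refine ⟨mul_mem h1 h3, fun x => ?_⟩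
    rw [Perm.mul_apply]
    have : g (h x) - x = (g (h x) - h x) + (h x - x) := by ring
    rw [this]
    exact dvd_add (h2 _) (h4 x)
  one_mem' := ⟨one_mem _, fun x => by simp⟩
  inv_mem' := by
    rintro g ⟨h1, h2⟩
    refine ⟨inv_mem h1, fun x => ?_⟩
    have h3 := h2 (g⁻¹ x)
    rw [ai] at h3
    rw [← dvd_neg]
    simpa using h3

lemma K_mono {k j : ℕ} : K k (j + 1) ≤ K k j :=
  fun _ hg => ⟨hg.1, fun x => (pow_dvd_pow _ (Nat.le_succ j)).trans (hg.2 x)⟩

/-- the digit function -/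
def dig (j : ℕ) (g : Perm ℤ) (x w : ℤ) : ℤ := (g (x + 3 ^ j * w) - x) / 3 ^ j

lemma dig_spec {k j : ℕ} {g : Perm ℤ} (hg : g ∈ K k j) (x w : ℤ) :
    g (x + 3 ^ j * w) = x + 3 ^ j * dig j g x w := by
  have h1 : (3 : ℤ) ^ j ∣ g (x + 3 ^ j * w) - x := by
    have h2 := hg.2 (x + 3 ^ j * w)
    have h3 : g (x + 3 ^ j * w) - x = (g (x + 3 ^ j * w) - (x + 3 ^ j * w)) + 3 ^ j * w := by ring
    rw [h3]
    exact dvd_add h2 (Dvd.intro _ rfl)
  unfold dig
  rw [Int.mul_ediv_cancel' h1]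
  ring

lemma dig_congr {k j : ℕ} {g : Perm ℤ} (hg : g ∈ K k j) (x w w' : ℤ)
    (h : ((w : ℤ) : ZMod 3) = ((w' : ℤ) : ZMod 3)) :
    ((dig j g x w : ℤ) : ZMod 3) = ((dig j g x w' : ℤ) : ZMod 3) := by
  rw [ZMod.intCast_eq_intCast_iff_dvd_sub] at h ⊢
  have h1 := dig_spec hg x w
  have h2 := dig_spec hg x w'
  have h3 : (3 : ℤ) ^ (j + 1) ∣ (x + 3 ^ j * w') - (x + 3 ^ j * w) := by
    have : (x + 3 ^ j * w') - (x + 3 ^ j * w) = 3 ^ j * (w' - w) := by ring
    rw [this, pow_succ]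
    exact mul_dvd_mul_left _ (by exact_mod_cast h)
  have h4 := (hg.1.2.1 (j + 1) _ _).1 h3
  rw [h1, h2] at h4
  have h5 : x + 3 ^ j * dig j g x w' - (x + 3 ^ j * dig j g x w)
      = 3 ^ j * (dig j g x w' - dig j g x w) := by ring
  rw [h5, pow_succ] at h4
  exact_mod_cast Int.dvd_of_mul_dvd_mul_left (by positivity) h4

/-- the action of `K k j` on the classes modulo `3 ^ (j + 1)` inside the class of `x` -/
@[reducible]
def actn (k j : ℕ) (x : ℤ) : MulAction (K k j) (ZMod 3) where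
  smul g v := ((dig j g.1 x (v.val : ℤ) : ℤ) : ZMod 3)
  one_smul v := by
    change ((dig j (1 : Perm ℤ) x (v.val : ℤ) : ℤ) : ZMod 3) = v
    unfold dig
    rw [Perm.one_apply, add_sub_cancel_left, Int.mul_ediv_cancel_left _ (by positivity)]
    simp
  mul_smul g h v := by
    change ((dig j (g.1 * h.1) x (v.val : ℤ) : ℤ) : ZMod 3)
      = ((dig j g.1 x ((((dig j h.1 x (v.val : ℤ) : ℤ) : ZMod 3)).val : ℤ) : ℤ) : ZMod 3)
    rw [dig_congr g.2 x (((((dig j h.1 x (v.val : ℤ) : ℤ) : ZMod 3)).val : ℤ)) (dig j h.1 x (v.val : ℤ))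
      (by simp)]
    congr 1
    have h1 := dig_spec (mul_mem g.2 h.2) x (v.val : ℤ)
    have h2 := dig_spec h.2 x (v.val : ℤ)
    have h3 := dig_spec g.2 x (dig j h.1 x (v.val : ℤ))
    rw [Perm.mul_apply, h2, h3] at h1
    have hpos : (3 : ℤ) ^ j ≠ 0 := by positivity
    have h4 := add_left_cancel h1
    exact (mul_left_cancel₀ hpos h4).symm

/-- the homomorphism describing the action on classes modulo `3 ^ (j + 1)` -/
def phi (k j : ℕ) : K k j →* (ℤ → Perm (ZMod 3)) :=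
  MonoidHom.pi (fun x => @MulAction.toPermHom (K k j) (ZMod 3) _ (actn k j x))

lemma ker_phi (k j : ℕ) (g : K k j) (hg : g ∈ (phi k j).ker) : g.1 ∈ K k (j + 1) := by
  refine ⟨g.2.1, fun x => ?_⟩
  have h1 : phi k j g x = 1 := congrFun hg x
  have h2 : phi k j g x 0 = 0 := by rw [h1]; rfl
  have h3 : phi k j g x 0 = ((dig j g.1 x ((0 : ZMod 3).val : ℤ) : ℤ) : ZMod 3) := rfl
  rw [h3, ZMod.val_zero, Nat.cast_zero, ZMod.intCast_zmod_eq_zero_iff_dvd] at h2
  have h4 := dig_spec g.2 x 0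
  rw [mul_zero, add_zero] at h4
  rw [h4, pow_succ]
  have : x + 3 ^ j * dig j g.1 x 0 - x = 3 ^ j * dig j g.1 x 0 := by ring
  rw [this]
  exact mul_dvd_mul_left _ (by exact_mod_cast h2)

lemma solv_step (k j : ℕ) (h : Group.IsSolvable (K k (j + 1))) : Group.IsSolvable (K k j) := by
  have := solvable_perm3
  refine Group.isSolvable_of_ker_le_range (Subgroup.inclusion (K_mono (k := k) (j := j))) (phi k j) ?_
  intro g hg
  exact ⟨⟨g.1, ker_phi k j g hg⟩, rfl⟩

/-- the sign of `g` on the class of `x` -/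
def sg (k : ℕ) (g : Perm ℤ) (x : ℤ) : ℤ := (g (x + 3 ^ k) - g x) / 3 ^ k

lemma sg_spec {k : ℕ} {g : Perm ℤ} (hg : g ∈ Gk k) (x y : ℤ) :
    g (x + 3 ^ k * y) = g x + sg k g x * (3 ^ k * y) := by
  obtain ⟨e, he, h1⟩ := hg.2.2 x
  have h2 := h1 1
  rw [mul_one] at h2
  have h3 : sg k g x = e := by
    unfold sg
    rw [h2, add_sub_cancel_left, Int.mul_ediv_cancel _ (by positivity)]
  rw [h3]
  exact h1 y

/-- the sign homomorphism on the kernel -/
def sgHom (k : ℕ) : K k k →* (ℤ → ℤ) where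
  toFun g x := sg k g.1 x
  map_one' := by
    ext x
    change sg k 1 x = 1
    unfold sg
    rw [Perm.one_apply, Perm.one_apply, add_sub_cancel_left, Int.ediv_self (by positivity)]
  map_mul' g h := by
    ext x
    change sg k (g.1 * h.1) x = sg k g.1 x * sg k h.1 x
    have h1 := sg_spec (mul_mem g.2.1 h.2.1) x 1
    have h2 := sg_spec h.2.1 x 1
    obtain ⟨d, hd⟩ := h.2.2 x
    have h3 : h.1 x = x + 3 ^ k * d := by linarith
    rw [Perm.mul_apply, Perm.mul_apply, h2, h3] at h1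
    have h4 := sg_spec g.2.1 x (d + sg k h.1 x * 1)
    have h5 := sg_spec g.2.1 x d
    rw [h5] at h1
    have h6 : x + 3 ^ k * d + sg k h.1 x * (3 ^ k * 1) = x + 3 ^ k * (d + sg k h.1 x * 1) := by ring
    rw [h6, h4] at h1
    have hpos : (3 : ℤ) ^ k ≠ 0 := by positivity
    apply mul_left_cancel₀ hpos
    linarith

lemma solv_base (k : ℕ) : Group.IsSolvable (K k k) := by
  have hker : Group.IsSolvable (sgHom k).toHomUnits.ker := by
    apply Group.isSolvable_of_comm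
    rintro ⟨⟨a, ha⟩, ha'⟩ ⟨⟨b, hb⟩, hb'⟩
    apply Subtype.ext
    apply Subtype.ext
    change a * b = b * a
    have hsa : ∀ x, sg k a x = 1 := by
      intro x
      have h1 : ((sgHom k).toHomUnits ⟨a, ha⟩ : ℤ → ℤ) = 1 := by
        have h2 : (sgHom k).toHomUnits ⟨a, ha⟩ = 1 := ha'
        rw [h2]; rfl
      exact congrFun h1 x
    have hsb : ∀ x, sg k b x = 1 := by
      intro x
      have h1 : ((sgHom k).toHomUnits ⟨b, hb⟩ : ℤ → ℤ) = 1 := by
        have h2 : (sgHom k).toHomUnits ⟨b, hb⟩ = 1 := hb'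
        rw [h2]; rfl
      exact congrFun h1 x
    ext x
    rw [Perm.mul_apply, Perm.mul_apply]
    obtain ⟨c, hc⟩ := ha.2 x
    obtain ⟨d, hd⟩ := hb.2 x
    have h1 := sg_spec ha.1 x d
    have h2 := sg_spec hb.1 x c
    rw [hsa] at h1
    rw [hsb] at h2
    have h3 : b x = x + 3 ^ k * d := by linarith
    have h4 : a x = x + 3 ^ k * c := by linarith
    rw [h3, h1, h4, h2, h3]
    ring
  exact Group.isSolvable_of_ker_le_range (sgHom k).toHomUnits.ker.subtype (sgHom k).toHomUnits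
    (by simp)

lemma solv_Gk (k : ℕ) : Group.IsSolvable (Gk k) := by
  have h : ∀ d j, j + d = k → Group.IsSolvable (K k j) := by
    intro d
    induction d with
    | zero =>
      intro j hj
      have : j = k := by omega
      subst this
      exact solv_base j
    | succ d ih =>
      intro j hj
      exact solv_step k j (ih (j + 1) (by omega))
  have h0 := h k 0 (by omega)
  have hle : Gk k ≤ K k 0 := fun g hg => ⟨hg, fun x => by simp⟩
  exact Group.isSolvable_of_isSolvable_injective (Subgroup.inclusion_injective hle)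

end Pool.Agent.Helper49.LSP
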